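import Pool.Agent.N212.KS.Stm

/-!
Project KS (helper212), leaf CANS: the canonical limit, for sequences (helper774).
-/

set_option autoImplicit false

open Filter Topology

namespace Pool.Agent.N774.KS

theorem t_CANS : Pool.Agent.N212.KS.S_CANS := by
  intro C K lam mu hC hK hlam hmu hlt
  set s : ℝ := √mu with hs
  have hs0 : 0 < s := Real.sqrt_pos.2 hmu
  have hss : s ^ 2 = mu := Real.sq_sqrt hmu.le
  have hslam : s < lam := by
    rw [hs, Real.sqrt_lt' hlam]
    exact hlt
  set r : ℝ := s / lam with hr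
  have hr1 : r < 1 := (div_lt_one hlam).2 hslam
  refine ⟨C * √K / (lam * (1 - r)), ?_⟩
  intro M a hM1 ha hM
  have hM0 : 0 ≤ M 0 := zero_le_one.trans (hM1 0)
  have hsq : ∀ n, √(M n) ≤ √K * s ^ n * √(M 0) := by
    intro n
    have h1 : √(M n) ≤ √(K * mu ^ n * M 0) := Real.sqrt_le_sqrt (hM n)
    have h2 : √(K * mu ^ n * M 0) = √K * s ^ n * √(M 0) := by
      rw [Real.sqrt_mul (by positivity), Real.sqrt_mul hK.le]
      congr 2
      rw [← hss, ← pow_mul, mul_comm 2 n, pow_mul, Real.sqrt_sq (by positivity)]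
    rw [h2] at h1
    exact h1
  have hb : ∀ n, dist (a n / lam ^ n) (a (n + 1) / lam ^ (n + 1)) ≤
      (C * √K * √(M 0) / lam) * r ^ n := by
    intro n
    have hln : 0 < lam ^ n := by positivity
    have h1 : a n / lam ^ n - a (n + 1) / lam ^ (n + 1) = -(a (n + 1) - lam * a n) / lam ^ (n + 1) := by
      rw [pow_succ]
      field_simp
      ring
    rw [Real.dist_eq, h1, abs_div, abs_neg, abs_of_pos (by positivity : 0 < lam ^ (n + 1))]
    have h2 : |a (n + 1) - lam * a n| ≤ C * (√K * s ^ n * √(M 0)) :=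
      (ha n).trans (mul_le_mul_of_nonneg_left (hsq n) hC)
    have h3 : (C * √K * √(M 0) / lam) * r ^ n = C * (√K * s ^ n * √(M 0)) / lam ^ (n + 1) := by
      rw [hr, div_pow, pow_succ]
      field_simp
    rw [h3]
    exact div_le_div_of_nonneg_right h2 (by positivity)
  have hc := cauchySeq_of_le_geometric r _ hr1 hb
  obtain ⟨L, hL⟩ := cauchySeq_tendsto_of_complete hc
  refine ⟨L, hL, ?_⟩
  have h4 := dist_le_of_le_geometric_of_tendsto₀ r _ hr1 hb hL
  rw [pow_zero, div_one, dist_comm, Real.dist_eq] at h4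
  refine h4.trans (le_of_eq ?_)
  have h5 : 0 < 1 - r := by linarith
  field_simp

end Pool.Agent.N774.KS
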